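import Pool.Agent.Y773.NV.St1
import Pool.Agent.Y772.HC.Mer

/-!
# Project NV (helper773): Mertens' upper bound for the prime ideals
-/

set_option autoImplicit false

open NumberField Complex Filter Topology Ideal
open scoped ArithmeticFunction.vonMangoldt

namespace Pool.Agent.Y888.NV

open Pool.Agent.Y773 Pool.Agent.Y767 Pool.Agent.Y772.SL Pool.Agent.Y772.NZ
open Pool.Agent.Y773.NV (nm St_MER St_DIV)
open Pool.Agent.Y772.HC (cK_norm t_mer)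
open Pool.Agent.Y772

section
variable {K : Type} [Field K] [NumberField K]

lemma two_le {𝔭 : Ideal (𝓞 K)} (h : Prime 𝔭) : 2 ≤ absNorm 𝔭 := by
  have h0 : absNorm 𝔭 ≠ 0 := fun h1 => h.ne_zero (absNorm_eq_zero_iff.1 h1)
  have h1 : absNorm 𝔭 ≠ 1 := fun h2 => h.not_unit (isUnit_iff.2 (absNorm_eq_one_iff.1 h2))
  omega

open Classical in
lemma loc (S : Finset (Ideal (𝓞 K))) (hS : ∀ 𝔭 ∈ S, Prime 𝔭) (n : ℕ) :
    ∑ _𝔭 ∈ S.filter (fun 𝔭 => absNorm 𝔭 = n), Real.log n ≤ Λ n * ‖cK K n‖ ^ 2 := by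
  have hΛ : 0 ≤ Λ n := ArithmeticFunction.vonMangoldt_nonneg
  rcases (S.filter (fun 𝔭 => absNorm 𝔭 = n)).eq_empty_or_nonempty with h0 | ⟨𝔭0, h0⟩
  · rw [h0, Finset.sum_empty]
    positivity
  have hVM : ∀ 𝔭 ∈ S.filter (fun 𝔭 => absNorm 𝔭 = n), VM 𝔭 = Real.log n := by
    intro 𝔭 h
    rw [Finset.mem_filter] at h
    have h7 := DK.VM_pow (hS 𝔭 h.1) one_ne_zero
    rw [pow_one, h.2] at h7
    exact h7
  have hn : 2 ≤ n := by
    have h1 := h0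
    rw [Finset.mem_filter] at h1
    rw [← h1.2]
    exact two_le (hS 𝔭0 h1.1)
  have hl : 0 < Real.log n := Real.log_pos (by exact_mod_cast hn)
  have hfin : {𝔞 : Ideal (𝓞 K) | absNorm 𝔞 = n}.Finite := Ideal.finite_setOfPred_absNorm_eq n
  have hsub : S.filter (fun 𝔭 => absNorm 𝔭 = n) ⊆ hfin.toFinset := by
    intro 𝔭 h
    rw [Finset.mem_filter] at h
    rw [Set.Finite.mem_toFinset]
    exact h.2
  have hΛ0 : 0 < Λ n := by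
    have h1 := DK.sum_VM_le (K := K) n
    unfold DK.NN at h1
    rw [finsum_mem_eq_finite_toFinset_sum _ hfin] at h1
    have h2 : VM 𝔭0 ≤ ∑ 𝔞 ∈ hfin.toFinset, VM 𝔞 :=
      Finset.single_le_sum (f := fun 𝔞 : Ideal (𝓞 K) => VM 𝔞) (fun 𝔞 _ => DK.VM_nonneg 𝔞)
        (hsub h0)
    rw [hVM 𝔭0 h0] at h2
    rcases hΛ.eq_or_lt with h5 | h5
    · rw [← h5, mul_zero] at h1
      linarith
    · exact h5
  rw [cK_norm, div_pow, Real.sq_sqrt (finsum_nonneg fun 𝔞 => finsum_nonneg fun _ => sq_nonneg _),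
    finsum_mem_eq_finite_toFinset_sum _ hfin]
  have h3 : ∑ 𝔭 ∈ S.filter (fun 𝔭 => absNorm 𝔭 = n), Real.log n ^ 2 ≤
      ∑ 𝔞 ∈ hfin.toFinset, VM 𝔞 ^ 2 := by
    rw [Finset.sum_congr rfl fun 𝔭 h => by rw [← hVM 𝔭 h]]
    exact Finset.sum_le_sum_of_subset_of_nonneg hsub fun 𝔞 _ _ => sq_nonneg _
  have h4 : Λ n ≤ Real.log n := ArithmeticFunction.vonMangoldt_le_log
  have h5 : (∑ _𝔭 ∈ S.filter (fun 𝔭 => absNorm 𝔭 = n), Real.log n) * Λ n ≤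
      ∑ _𝔭 ∈ S.filter (fun 𝔭 => absNorm 𝔭 = n), Real.log n ^ 2 := by
    rw [Finset.sum_mul]
    refine Finset.sum_le_sum fun _ _ => ?_
    rw [sq]
    gcongr
  have h6 : Λ n * ((∑ 𝔞 ∈ hfin.toFinset, VM 𝔞 ^ 2) / Λ n ^ 2) =
      (∑ 𝔞 ∈ hfin.toFinset, VM 𝔞 ^ 2) / Λ n := by
    field_simp
  rw [h6, le_div_iff₀ hΛ0]
  exact h5.trans h3

/-- the sum of Selberg -/
noncomputable def EE (K : Type) [Field K] [NumberField K] (x : ℝ) : ℝ :=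
  ∑ n ∈ Finset.Icc 1 ⌊x⌋₊, Λ n * ‖cK K n‖ ^ 2 / n

lemma EE_mono {x y : ℝ} (h : x ≤ y) : EE K x ≤ EE K y := by
  unfold EE
  refine Finset.sum_le_sum_of_subset_of_nonneg ?_ fun n _ _ => ?_
  · exact Finset.Icc_subset_Icc le_rfl (Nat.floor_le_floor h)
  · have hΛ : 0 ≤ Λ n := ArithmeticFunction.vonMangoldt_nonneg
    positivity

open Classical in
lemma sum_le_EE (S : Finset (Ideal (𝓞 K))) (hS : ∀ 𝔭 ∈ S, Prime 𝔭) (z : ℝ) :
    ∑ 𝔭 ∈ S.filter (fun 𝔭 => nm 𝔭 ≤ z), Real.log (nm 𝔭) / nm 𝔭 ≤ EE K z := by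
  have h1 : ∀ 𝔭 ∈ S.filter (fun 𝔭 => nm 𝔭 ≤ z), absNorm 𝔭 ∈ Finset.Icc 1 ⌊z⌋₊ := by
    intro 𝔭 h
    rw [Finset.mem_filter] at h
    rw [Finset.mem_Icc]
    exact ⟨(two_le (hS 𝔭 h.1)).trans' (by norm_num), Nat.le_floor h.2⟩
  rw [← Finset.sum_fiberwise_of_maps_to h1]
  unfold EE
  refine Finset.sum_le_sum fun n hn => ?_
  rw [Finset.mem_Icc] at hn
  have hn0 : (0 : ℝ) < n := by exact_mod_cast hn.1
  have h2 := loc S hS n
  rw [le_div_iff₀ hn0, Finset.sum_mul]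
  refine le_trans ?_ h2
  have h3 : ∀ 𝔭 ∈ (S.filter (fun 𝔭 => nm 𝔭 ≤ z)).filter (fun 𝔭 => absNorm 𝔭 = n),
      Real.log (nm 𝔭) / nm 𝔭 * n = Real.log n := by
    intro 𝔭 h
    rw [Finset.mem_filter] at h
    unfold nm
    rw [h.2]
    field_simp
  rw [Finset.sum_congr rfl h3]
  refine Finset.sum_le_sum_of_subset_of_nonneg ?_ fun _ _ _ => Real.log_natCast_nonneg n
  intro 𝔭 h
  rw [Finset.mem_filter, Finset.mem_filter] at h
  rw [Finset.mem_filter]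
  exact ⟨h.1.1, h.2⟩

end

lemma aux1 {N : ℝ} (hN : 2 ≤ N) : Real.log N / N ^ 2 ≤ 2 * N ^ (-1 - (1 / 2 : ℝ)) := by
  have h0 : (0 : ℝ) < N := by linarith
  have h1 : Real.log N ≤ N ^ (1 / 2 : ℝ) / (1 / 2) := Real.log_le_rpow_div h0.le (by norm_num)
  have h2 : N ^ (-1 - (1 / 2 : ℝ)) = N ^ (1 / 2 : ℝ) / N ^ 2 := by
    rw [← Real.rpow_natCast N 2, ← Real.rpow_sub h0]
    norm_num
  rw [h2, ← mul_div_assoc]
  gcongr
  linarith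

theorem t_mer' (hD : St_DIV) : St_MER := by
  classical
  intro K _ _ ε hε
  obtain ⟨CD, hCD1, -, hCD⟩ := hD K (1 / 2) (by norm_num)
  have hT : Tendsto (fun x : ℝ => EE K x / Real.log x) atTop (𝓝 1) := t_mer K
  have h1 : ∀ᶠ x : ℝ in atTop, EE K x / Real.log x < 1 + ε :=
    hT.eventually_lt_const (by linarith)
  obtain ⟨z0, hz0⟩ := eventually_atTop.1 (h1.and (eventually_ge_atTop 2))
  obtain ⟨z1, hz1⟩ : ∃ z1, z1 = max z0 2 := ⟨_, rfl⟩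
  have hz1' : 2 ≤ z1 := by rw [hz1]; exact le_max_right _ _
  have hl1 : 0 ≤ Real.log z1 := Real.log_nonneg (by linarith)
  have hE : ∀ z : ℝ, 1 ≤ z → EE K z ≤ (1 + ε) * Real.log z + (1 + ε) * Real.log z1 := by
    intro z hz
    have hlz : 0 ≤ Real.log z := Real.log_nonneg hz
    have key : ∀ x : ℝ, z1 ≤ x → EE K x ≤ (1 + ε) * Real.log x := by
      intro x hx
      have hx2 : 2 ≤ x := hz1'.trans hx
      have h2 := (hz0 x ((le_max_left z0 2).trans (by rw [← hz1]; exact hx))).1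
      rw [div_lt_iff₀ (Real.log_pos (by linarith))] at h2
      exact h2.le
    rcases le_total z1 z with h2 | h2
    · have := key z h2
      nlinarith
    · have h3 := (EE_mono (K := K) h2).trans (key z1 le_rfl)
      nlinarith
  refine ⟨(1 + ε) * Real.log z1 + 8 * CD, by positivity, fun S hS => ?_⟩
  have hN : ∀ 𝔭 ∈ S, (2 : ℝ) ≤ nm 𝔭 := fun 𝔭 h => by
    unfold nm
    exact_mod_cast two_le (hS 𝔭 h)
  have hsum : ∀ T ⊆ S, ∑ 𝔭 ∈ T, Real.log (nm 𝔭) / nm 𝔭 ^ 2 ≤ 2 * CD := by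
    intro T hT
    calc ∑ 𝔭 ∈ T, Real.log (nm 𝔭) / nm 𝔭 ^ 2 ≤ ∑ 𝔭 ∈ T, 2 * nm 𝔭 ^ (-1 - (1 / 2 : ℝ)) :=
          Finset.sum_le_sum fun 𝔭 h => aux1 (hN 𝔭 (hT h))
      _ = 2 * ∑ 𝔭 ∈ T, nm 𝔭 ^ (-1 - (1 / 2 : ℝ)) := by rw [Finset.mul_sum]
      _ ≤ 2 * CD := by
        gcongr
        exact hCD T fun 𝔭 h => (hS 𝔭 (hT h)).ne_zero
  constructor
  · intro z hz
    have h2 : ∑ 𝔭 ∈ S.filter (fun 𝔭 => nm 𝔭 ≤ z), Real.log (nm 𝔭) / (nm 𝔭 - 1) ≤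
        ∑ 𝔭 ∈ S.filter (fun 𝔭 => nm 𝔭 ≤ z), Real.log (nm 𝔭) / nm 𝔭 +
          2 * ∑ 𝔭 ∈ S.filter (fun 𝔭 => nm 𝔭 ≤ z), Real.log (nm 𝔭) / nm 𝔭 ^ 2 := by
      rw [Finset.mul_sum, ← Finset.sum_add_distrib]
      refine Finset.sum_le_sum fun 𝔭 h => ?_
      have h3 := hN 𝔭 (Finset.mem_filter.1 h).1
      have h4 : 0 ≤ Real.log (nm 𝔭) := Real.log_nonneg (by linarith)
      have h5 : (0 : ℝ) < nm 𝔭 - 1 := by linarith
      have h6 : (0 : ℝ) < nm 𝔭 := by linarith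
      have h7 : Real.log (nm 𝔭) / nm 𝔭 + 2 * (Real.log (nm 𝔭) / nm 𝔭 ^ 2) =
          Real.log (nm 𝔭) * ((nm 𝔭 + 2) / nm 𝔭 ^ 2) := by
        field_simp
      rw [h7, div_eq_mul_inv]
      gcongr
      rw [inv_eq_one_div, div_le_div_iff₀ h5 (by positivity)]
      nlinarith
    have h3 := sum_le_EE S hS z
    have h4 := hsum _ (Finset.filter_subset (fun 𝔭 => nm 𝔭 ≤ z) S)
    have h5 := hE z hz
    linarith
  · have h2 : ∑ 𝔭 ∈ S, Real.log (nm 𝔭) / (nm 𝔭 - 1) ^ 2 ≤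
        4 * ∑ 𝔭 ∈ S, Real.log (nm 𝔭) / nm 𝔭 ^ 2 := by
      rw [Finset.mul_sum]
      refine Finset.sum_le_sum fun 𝔭 h => ?_
      have h3 := hN 𝔭 h
      have h4 : 0 ≤ Real.log (nm 𝔭) := Real.log_nonneg (by linarith)
      have h5 : (0 : ℝ) < nm 𝔭 - 1 := by linarith
      have h6 : (0 : ℝ) < nm 𝔭 := by linarith
      have h7 : 4 * (Real.log (nm 𝔭) / nm 𝔭 ^ 2) = Real.log (nm 𝔭) * (4 / nm 𝔭 ^ 2) := by ring
      rw [h7, div_eq_mul_inv]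
      gcongr
      rw [inv_eq_one_div, div_le_div_iff₀ (by positivity) (by positivity)]
      nlinarith
    have h3 := hsum S subset_rfl
    have h4 : 0 ≤ (1 + ε) * Real.log z1 := by positivity
    linarith

end Pool.Agent.Y888.NV
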